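import Mathlib

/-!
# Normalised absolute values of the fraction field of a Dedekind domain
-/

set_option linter.all false

namespace Pool.Agent.Lib.MP_43d240_ag.H2

open IsDedekindDomain WithZeroMulInt

lemma one_lt_two_nn : (1 : NNReal) < 2 := by norm_num

section Dedekind

variable {B : Type*} (L : Type*) [CommRing B] [IsDedekindDomain B] [Field L] [Algebra B L]
  [IsFractionRing B L]

/-- The `P`-adic absolute value with values in `2 ^ ℤ`. -/
noncomputable def abvP (P : HeightOneSpectrum B) : AbsoluteValue L ℝ := P.adicAbv one_lt_two_nn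

lemma toNNReal_exp (n : ℤ) : toNNReal (ne_zero_of_lt one_lt_two_nn) (WithZero.exp n) = (2 : NNReal) ^ n := by
  rw [toNNReal_neg_apply _ WithZero.exp_ne_zero]
  rfl

lemma abvP_algebraMap (P : HeightOneSpectrum B) {r : B} (hr : r ≠ 0) :
    abvP L P (algebraMap B L r) = (2⁻¹ : ℝ) ^ multiplicity P.asIdeal (Ideal.span {r}) := by
  rw [abvP, HeightOneSpectrum.adicAbv_of_algebraMap]
  change ((toNNReal (ne_zero_of_lt one_lt_two_nn) (P.intValuation r) : NNReal) : ℝ) = _
  rw [HeightOneSpectrum.intValuation_eq_exp_neg_multiplicity P hr, toNNReal_exp]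
  push_cast
  rw [zpow_neg, zpow_natCast, inv_pow]

lemma abvP_nonarch (P : HeightOneSpectrum B) : IsNonarchimedean (abvP L P) :=
  HeightOneSpectrum.isNonarchimedean_adicAbv P one_lt_two_nn

lemma abvP_zpow (P : HeightOneSpectrum B) (x : L) (hx : x ≠ 0) : ∃ n : ℤ, abvP L P x = 2 ^ n := by
  obtain ⟨a, b, hb, rfl⟩ := IsFractionRing.div_surjective (A := B) x
  have hb0 : b ≠ 0 := nonZeroDivisors.ne_zero hb
  have ha0 : a ≠ 0 := by rintro rfl; simp at hx
  rw [map_div₀, abvP_algebraMap L P ha0, abvP_algebraMap L P hb0]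
  refine ⟨multiplicity P.asIdeal (Ideal.span {b}) - multiplicity P.asIdeal (Ideal.span {a}), ?_⟩
  rw [zpow_sub₀ (by norm_num), zpow_natCast, zpow_natCast, inv_pow, inv_pow]
  field_simp

lemma abvP_unif (P : HeightOneSpectrum B) : ∃ x : L, abvP L P x = 2⁻¹ := by
  obtain ⟨π, hπ⟩ := P.intValuation_exists_uniformizer
  refine ⟨algebraMap B L π, ?_⟩
  rw [abvP, HeightOneSpectrum.adicAbv_of_algebraMap]
  change ((toNNReal (ne_zero_of_lt one_lt_two_nn) (P.intValuation π) : NNReal) : ℝ) = _
  rw [hπ, toNNReal_exp]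
  simp

/-- A normalised absolute value of `L` which is `≤ 1` on `B` is `abvP L P` for the prime
`P = {|b| < 1}`. -/
theorem exists_abvP (v : AbsoluteValue L ℝ) (hv : IsNonarchimedean v)
    (hz : ∀ x : L, x ≠ 0 → ∃ n : ℤ, v x = 2 ^ n) (hu : ∃ x : L, v x = 2⁻¹)
    (hB : ∀ b : B, v (algebraMap B L b) ≤ 1) :
    ∃ P : HeightOneSpectrum B, v = abvP L P := by
  let I : Ideal B :=
    { carrier := {b | v (algebraMap B L b) < 1}
      zero_mem' := by simp
      add_mem' := by
        intro a b ha hb
        simp only [Set.mem_setOf_eq, map_add] at *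
        exact (hv _ _).trans_lt (max_lt ha hb)
      smul_mem' := by
        intro c b hb
        simp only [Set.mem_setOf_eq, smul_eq_mul, map_mul] at *
        calc v (algebraMap B L c) * v (algebraMap B L b)
            ≤ 1 * v (algebraMap B L b) := by
              gcongr
              exact hB c
          _ < 1 := by simpa using hb }
  have hmem : ∀ b, b ∈ I ↔ v (algebraMap B L b) < 1 := fun b => Iff.rfl
  have hprime : I.IsPrime := by
    refine ⟨?_, ?_⟩
    · rw [Ideal.ne_top_iff_one, hmem]
      simp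
    · intro a b hab
      rw [hmem, map_mul, map_mul] at hab
      rw [hmem, hmem]
      by_contra hcon
      push Not at hcon
      have h1 : v (algebraMap B L a) = 1 := le_antisymm (hB a) hcon.1
      have h2 : v (algebraMap B L b) = 1 := le_antisymm (hB b) hcon.2
      rw [h1, h2] at hab
      norm_num at hab
  have hbot : I ≠ ⊥ := by
    obtain ⟨x, hx⟩ := hu
    have hx0 : x ≠ 0 := by rintro rfl; simp at hx
    obtain ⟨a, b, hb, rfl⟩ := IsFractionRing.div_surjective (A := B) x
    have ha0 : a ≠ 0 := by rintro rfl; simp at hx0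
    intro hI
    have : a ∈ I := by
      rw [hmem]
      rw [map_div₀] at hx
      have hb1 := hB b
      have hbpos : 0 < v (algebraMap B L b) := by
        rw [AbsoluteValue.pos_iff]
        simpa using nonZeroDivisors.ne_zero hb
      rw [div_eq_iff hbpos.ne'] at hx
      rw [hx]
      linarith
    rw [hI] at this
    exact ha0 this
  let P : HeightOneSpectrum B := ⟨I, hprime, hbot⟩
  have hunit : ∀ b : B, b ∉ I → v (algebraMap B L b) = 1 := by
    intro b hb
    rw [hmem, not_lt] at hb
    exact le_antisymm (hB b) hb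
  have hone' : ∀ b : B, abvP L P (algebraMap B L b) = 1 → v (algebraMap B L b) = 1 := by
    intro b hb
    apply hunit
    rw [abvP, HeightOneSpectrum.adicAbv_coe_eq_one_iff] at hb
    exact hb
  have hout : ∀ b : B, b ∉ I → abvP L P (algebraMap B L b) = 1 := by
    intro b hb
    rw [abvP, HeightOneSpectrum.adicAbv_coe_eq_one_iff]
    exact hb
  -- elements of `P`-adic absolute value one have absolute value one
  have hone : ∀ x : L, abvP L P x = 1 → v x = 1 := by
    intro x hx
    obtain ⟨n, d, h | h⟩ := P.exists_primeCompl_mul_eq_or_mul_eq (K := L) x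
    · have hd := hout d d.2
      have h1 : abvP L P (algebraMap B L n) = 1 := by
        rw [← h, map_mul, hx, hd, one_mul]
      have h2 := hone' n h1
      rw [← h, map_mul, hunit d d.2, mul_one] at h2
      exact h2
    · have hd := hout d d.2
      have h1 : abvP L P (algebraMap B L n) = 1 := by
        have := congrArg (abvP L P) h
        rw [map_mul, hx, hd, one_mul] at this
        exact this
      have h2 := congrArg v h
      rw [map_mul, hone' n h1, hunit d d.2, mul_one] at h2
      exact h2
  obtain ⟨π, hπ⟩ := abvP_unif L P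
  have hπ0 : π ≠ 0 := by rintro rfl; simp at hπ
  -- all values are powers of the value of the uniformiser
  have hpow : ∀ x : L, ∀ n : ℤ, abvP L P x = (2 : ℝ) ^ n → v x = (v π) ^ (-n) := by
    intro x n hx
    have h1 : abvP L P (x * π ^ n) = 1 := by
      rw [map_mul, map_zpow₀, hx, hπ, inv_zpow, mul_inv_cancel₀ (zpow_ne_zero _ (by norm_num))]
    have h2 := hone _ h1
    rw [map_mul, map_zpow₀] at h2
    rw [zpow_neg]
    exact eq_inv_of_mul_eq_one_left h2
  have hvπ0 : v π ≠ 0 := by rw [AbsoluteValue.ne_zero_iff]; exact hπ0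
  have hπ2 : v π = 2⁻¹ := by
    obtain ⟨m, hm⟩ := hz π hπ0
    obtain ⟨x, hx⟩ := hu
    have hx0 : x ≠ 0 := by rintro rfl; simp at hx
    obtain ⟨n, hn⟩ := abvP_zpow L P x hx0
    have h1 := hpow x n hn
    rw [hx, hm, ← zpow_mul] at h1
    have h3 : ((2 : ℝ)) ^ (-1 : ℤ) = 2 ^ (m * -n) := by rw [← h1]; norm_num
    have h4 := zpow_right_injective₀ (by norm_num : (0:ℝ) < 2) (by norm_num) h3
    have h5 : m * n = 1 := by linarith [h4]
    -- `v π ≤ 1`
    have h6 : v π ≤ 1 := by
      obtain ⟨ϖ, hϖ⟩ := P.intValuation_exists_uniformizer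
      have h7 : abvP L P (algebraMap B L ϖ) = 2 ^ (-1 : ℤ) := by
        rw [abvP, HeightOneSpectrum.adicAbv_of_algebraMap]
        change ((toNNReal (ne_zero_of_lt one_lt_two_nn) (P.intValuation ϖ) : NNReal) : ℝ) = _
        rw [hϖ, toNNReal_exp]
        simp
      have h8 := hpow _ _ h7
      rw [neg_neg, zpow_one] at h8
      rw [← h8]
      exact hB ϖ
    rw [hm] at h6 ⊢
    have h7 : m ≤ 0 := by
      by_contra hcon
      push Not at hcon
      have : (1 : ℝ) < 2 ^ m := one_lt_zpow₀ (by norm_num) hcon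
      linarith
    have h8 : m = -1 := by
      rcases Int.eq_one_or_neg_one_of_mul_eq_one h5 with h | h
      · omega
      · exact h
    rw [h8]
    norm_num
  refine ⟨P, ?_⟩
  ext x
  by_cases hx : x = 0
  · simp [hx]
  · obtain ⟨n, hn⟩ := abvP_zpow L P x hx
    rw [hpow x n hn, hn, hπ2, inv_zpow, zpow_neg, inv_inv]

end Dedekind

end Pool.Agent.Lib.MP_43d240_ag.H2
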