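import Pool.Agent.Lib.MP_43d240_ag.H2.Pl1

/-!
# The degree formula for a chart
-/

set_option linter.all false

namespace Pool.Agent.Lib.MP_43d240_ag.H2

open IsDedekindDomain IntermediateField Pool.Agent.PI

section generic

variable {k κ A K B : Type} [Field k] [Field κ] [Algebra k κ] [CommRing A] [IsDomain A]
  [IsDedekindDomain A] [Algebra k A] [Algebra A κ] [IsScalarTower k A κ]
  [Field K] [Algebra A K] [IsFractionRing A K] [Algebra K κ] [IsScalarTower A K κ] [CommRing B]
  [IsDedekindDomain B] [Algebra A B] [Algebra B κ] [IsScalarTower A B κ] [IsFractionRing B κ]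
  [Module.Finite A B] [FaithfulSMul A B] [IsIntegralClosure B A κ]

variable (k A) in
include A in
lemma abvP_norm (P : HeightOneSpectrum B) : IsNormAbv k (abvP κ P) := by
  refine ⟨abvP_nonarch κ P, ?_, abvP_zpow κ P, abvP_unif κ P⟩
  intro c hc
  have h : ∀ c : k, abvP κ P (algebraMap k κ c) ≤ 1 := by
    intro c
    rw [IsScalarTower.algebraMap_apply k A κ, IsScalarTower.algebraMap_apply A B κ]
    exact HeightOneSpectrum.adicAbv_coe_le_one P one_lt_two_nn _
  refine le_antisymm (h c) ?_
  have h1 := h c⁻¹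
  rw [map_inv₀, map_inv₀] at h1
  have h2 : 0 < abvP κ P (algebraMap k κ c) := by
    rw [AbsoluteValue.pos_iff]
    simpa using hc
  exact (inv_le_one₀ h2).1 h1

lemma abvP_inj {P Q : HeightOneSpectrum B} (h : abvP κ P = abvP κ Q) : P = Q := by
  ext b
  rw [← HeightOneSpectrum.adicAbv_coe_lt_one_iff (K := κ) P one_lt_two_nn,
    ← HeightOneSpectrum.adicAbv_coe_lt_one_iff (K := κ) Q one_lt_two_nn]
  change abvP κ P _ < 1 ↔ abvP κ Q _ < 1
  rw [h]

variable (k κ A B) in
/-- the place of a prime of `B` -/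
noncomputable def plP (P : HeightOneSpectrum B) : Pl k κ :=
  abvPl (abvP κ P) (abvP_norm k A P)

lemma plAbv_plP (P : HeightOneSpectrum B) : plAbv (plP k κ A B P) = abvP κ P :=
  plAbv_abvPl _ _

lemma plP_v (P : HeightOneSpectrum B) {b : B} (hb : b ≠ 0) :
    (plP k κ A B P).v (algebraMap B κ b) = multiplicity P.asIdeal (Ideal.span {b}) := by
  have hb' : algebraMap B κ b ≠ 0 := by simpa using hb
  have h1 := plAbv_apply (plP k κ A B P) hb'
  rw [plAbv_plP, abvP_algebraMap κ P hb, inv_pow, ← zpow_natCast, ← zpow_neg] at h1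
  have h2 := zpow_right_injective₀ (by norm_num : (0:ℝ) < 2) (by norm_num) h1
  omega

variable (K B) in
include B in
theorem chart_F1 (a : A) (ha : Prime a) (hres : ∀ hm : (Ideal.span {a}).IsMaximal,
      letI := Ideal.Quotient.field (Ideal.span {a}); IsAlgClosed (A ⧸ Ideal.span {a}))
    (hA : ∀ w : Pl k κ, 0 ≤ w.v (algebraMap A κ a) → ∀ b : A, plAbv w (algebraMap A κ b) ≤ 1) :
    (Function.support fun w : Pl k κ => (w.v (algebraMap A κ a)).toNat).Finite ∧
    ∑ᶠ w : Pl k κ, (w.v (algebraMap A κ a)).toNat = Module.finrank K κ := by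
  obtain ⟨hfin, hsum⟩ := sum_mult (B := B) K κ a ha hres
  have haB : algebraMap A B a ≠ 0 := by
    rw [Ne, FaithfulSMul.algebraMap_eq_zero_iff]
    exact ha.ne_zero
  have haκ : algebraMap A κ a ≠ 0 := by
    rw [IsScalarTower.algebraMap_apply A B κ]
    simpa using haB
  let g : Above B a → Pl k κ := fun P => plP k κ A B P.1
  have hg : Function.Injective g := by
    intro P Q h
    apply Subtype.ext
    apply abvP_inj (κ := κ)
    rw [← plAbv_plP (k := k) (A := A), ← plAbv_plP (k := k) (A := A)]
    exact congrArg plAbv h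
  have hval : ∀ P : Above B a, (g P).v (algebraMap A κ a) =
      multiplicity P.1.asIdeal (Ideal.span {algebraMap A B a}) := by
    intro P
    rw [IsScalarTower.algebraMap_apply A B κ]
    exact plP_v P.1 haB
  have hrange : ∀ w : Pl k κ, 0 < w.v (algebraMap A κ a) → w ∈ Set.range g := by
    intro w hw
    have hn := plAbv_norm w
    have hB : ∀ b : B, plAbv w (algebraMap B κ b) ≤ 1 := by
      intro b
      refine le_one_of_isIntegral (A := A) (plAbv w) hn.1 (hA w hw.le) _ ?_
      have : IsIntegral A b := IsIntegral.of_finite A b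
      exact this.algebraMap
    obtain ⟨P, hP⟩ := exists_abvP κ (plAbv w) hn.1 hn.2.2.1 hn.2.2.2 hB
    have hmem : algebraMap A B a ∈ P.asIdeal := by
      rw [← HeightOneSpectrum.adicAbv_coe_lt_one_iff (K := κ) P one_lt_two_nn]
      change abvP κ P _ < 1
      rw [← hP, ← IsScalarTower.algebraMap_apply A B κ, plAbv_apply w haκ]
      exact zpow_lt_one_of_neg₀ (by norm_num) (by omega)
    refine ⟨⟨P, hmem⟩, ?_⟩
    apply plAbv_inj
    rw [hP]
    exact plAbv_plP P
  have hsupp : ∀ w : Pl k κ, w ∈ (Function.support fun w : Pl k κ => (w.v (algebraMap A κ a)).toNat) →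
      w ∈ Set.range g := by
    intro w hw
    apply hrange
    rw [Function.mem_support] at hw
    omega
  haveI := hfin.to_subtype
  have hfr : (Set.range g).Finite := Set.finite_range g
  refine ⟨hfr.subset hsupp, ?_⟩
  rw [← finsum_mem_univ, finsum_mem_inter_support_eq' _ Set.univ (Set.range g)
    (fun w hw => ⟨fun _ => hsupp w hw, fun _ => Set.mem_univ _⟩), finsum_mem_range hg, ← hsum]
  apply finsum_congr
  intro P
  rw [hval P]
  simp

end generic

end Pool.Agent.Lib.MP_43d240_ag.H2
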