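import Pool.Agent.Lib.MP_43d240_ag.PI.FFBase

/-!
# Function fields of one variable: finiteness over `k(f)` for every transcendental `f`
-/

set_option linter.all false

namespace Pool.Agent.Lib.MP_43d240_ag.H2

open IntermediateField Pool.Agent.PI

variable {k κ : Type} [Field k] [Field κ] [Algebra k κ]

lemma isAlgebraic_over {x : κ} [FiniteDimensional k⟮x⟯ κ] (hx : Transcendental k x) {f : κ}
    (hf : Transcendental k f) : Algebra.IsAlgebraic k⟮f⟯ κ := by
  have h1 : AlgebraicIndependent k ![x] := by
    rw [algebraicIndependent_singleton_iff 0]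
    exact hx
  have h2 : IsTranscendenceBasis k ![x] := by
    rw [isTranscendenceBasis_iff_algebraicIndependent_isAlgebraic]
    refine ⟨h1, ?_⟩
    rw [Matrix.range_cons, Matrix.range_empty, Set.union_empty]
    have : Algebra.IsAlgebraic k⟮x⟯ κ := inferInstance
    open scoped IntermediateField.algebraAdjoinAdjoin in
    exact (IsFractionRing.comap_isAlgebraic_iff (A := Algebra.adjoin k {x}) (K := k⟮x⟯) (C := κ)).2 this
  have h3 : Algebra.trdeg k κ = 1 := by
    rw [← h2.cardinalMk_eq_trdeg]
    simp
  have h4 : AlgebraicIndependent k ![f] := by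
    rw [algebraicIndependent_singleton_iff 0]
    exact hf
  have h5 : IsTranscendenceBasis k ![f] := by
    apply h4.isTranscendenceBasis_of_trdeg_le_of_finite
    rw [h3]
    simp
  have h6 := h5.isAlgebraic_field
  rw [Matrix.range_cons, Matrix.range_empty, Set.union_empty] at h6
  exact h6

lemma essFinite {x : κ} [FiniteDimensional k⟮x⟯ κ] : Algebra.EssFiniteType k κ := by
  haveI : Algebra.EssFiniteType k k⟮x⟯ := by
    rw [IntermediateField.essFiniteType_iff]
    exact ⟨{x}, by simp⟩
  exact Algebra.EssFiniteType.comp k k⟮x⟯ κ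

theorem finiteDimensional_over {x : κ} [FiniteDimensional k⟮x⟯ κ] (hx : Transcendental k x) {f : κ}
    (hf : Transcendental k f) : FiniteDimensional k⟮f⟯ κ := by
  haveI := isAlgebraic_over hx hf
  haveI : Algebra.EssFiniteType k κ := essFinite (x := x)
  haveI : Algebra.EssFiniteType k⟮f⟯ κ := Algebra.EssFiniteType.of_comp k k⟮f⟯ κ
  have hfg := (IntermediateField.fg_top_iff (F := k⟮f⟯) (E := κ)).2 inferInstance
  obtain ⟨s, hs⟩ := hfg
  have h := IntermediateField.finiteDimensional_adjoin (K := k⟮f⟯) (L := κ) (S := (s : Set κ))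
    (fun x _ => (Algebra.IsAlgebraic.isAlgebraic (R := k⟮f⟯) x).isIntegral)
  rw [hs] at h
  exact Module.Finite.equiv (IntermediateField.topEquiv (F := k⟮f⟯) (E := κ)).toLinearEquiv

theorem FF1_finiteDimensional (h : FF1 k κ) {f : κ} (hf : Transcendental k f) :
    FiniteDimensional k⟮f⟯ κ := by
  obtain ⟨x, hx, hfin⟩ := h
  exact finiteDimensional_over hx hf

end Pool.Agent.Lib.MP_43d240_ag.H2
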