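import Pool.Agent.Lib.MP_43d240_ag.H2.F1a
import Pool.Agent.Lib.MP_43d240_ag.H2.F1b

/-!
# The degree of the divisor of poles
-/

set_option linter.all false

namespace Pool.Agent.Lib.MP_43d240_ag.H2

open IsDedekindDomain IntermediateField Pool.Agent.PI
open scoped IntermediateField.algebraAdjoinAdjoin

variable {k κ : Type} [Field k] [Field κ] [Algebra k κ]

section
variable (t : κ) (ht : Transcendental k t)

/-- the generator of `k[t]` -/
noncomputable def tA (k : Type) {κ : Type} [Field k] [Field κ] [Algebra k κ] (t : κ) : AA k t :=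
  ⟨t, Algebra.self_mem_adjoin_singleton k t⟩

lemma eqPoly_X' : eqPoly t ht Polynomial.X = tA k t := Subtype.ext (eqPoly_X t ht)

include ht in
lemma prime_tA : Prime (tA k t) := by
  rw [← eqPoly_X' t ht]
  exact (MulEquiv.prime_iff (eqPoly t ht).toMulEquiv).2 Polynomial.prime_X

include ht in
lemma surj_const : Function.Surjective
    (fun c : k => Ideal.Quotient.mk (Ideal.span {tA k t}) (algebraMap k (AA k t) c)) := by
  intro y
  obtain ⟨a, rfl⟩ := Ideal.Quotient.mk_surjective y
  obtain ⟨p, rfl⟩ := (eqPoly t ht).surjective a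
  refine ⟨p.coeff 0, ?_⟩
  dsimp only
  rw [eq_comm, Ideal.Quotient.eq, Ideal.mem_span_singleton, ← eqPoly_X' t ht]
  have h1 : algebraMap k (AA k t) (p.coeff 0) = eqPoly t ht (Polynomial.C (p.coeff 0)) := by
    rw [← Polynomial.algebraMap_eq, AlgEquiv.commutes]
  rw [h1, ← map_sub]
  apply map_dvd
  rw [Polynomial.X_dvd_iff]
  simp

/-- a field which is a surjective image of an algebraically closed field is algebraically
closed -/
lemma isAlgClosed_of_surj {k F : Type} [Field k] [IsAlgClosed k] [Field F] (f : k →+* F)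
    (hf : Function.Surjective f) : IsAlgClosed F :=
  IsAlgClosed.of_ringEquiv k F (RingEquiv.ofBijective f ⟨f.injective, hf⟩)

include ht in
lemma isAlgClosed_quot [IsAlgClosed k] (hm : (Ideal.span {tA k t}).IsMaximal) :
    letI := Ideal.Quotient.field (Ideal.span {tA k t})
    IsAlgClosed (AA k t ⧸ Ideal.span {tA k t}) := by
  letI := Ideal.Quotient.field (Ideal.span {tA k t})
  exact isAlgClosed_of_surj ((Ideal.Quotient.mk (Ideal.span {tA k t})).comp (algebraMap k (AA k t)))
    (surj_const t ht)

/-- the degree of the divisor of zeros -/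
theorem zeros [IsAlgClosed k] [CharZero k] (ht : Transcendental k t) [FiniteDimensional k⟮t⟯ κ] :
    (Function.support fun w : Pl k κ => (w.v t).toNat).Finite ∧
    ∑ᶠ w : Pl k κ, (w.v t).toNat = Module.finrank k⟮t⟯ κ := by
  haveI := isPIR_AA t ht
  haveI : IsDedekindDomain (AA k t) := inferInstance
  haveI := isDedekind_BB t ht
  haveI := isFrac_BB (k := k) t
  haveI := finite_BB t ht
  haveI : FaithfulSMul (AA k t) (BB k t) := by
    rw [faithfulSMul_iff_algebraMap_injective]
    intro x y hxy
    have := congrArg (algebraMap (BB k t) κ) hxy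
    exact Subtype.ext this
  refine chart_F1 (K := k⟮t⟯) (B := BB k t) (tA k t) (prime_tA t ht) (isAlgClosed_quot t ht) ?_
  intro w hw b
  refine adjoin_le_one (plAbv_norm w) (t := t) ?_ b
  have ht0 : t ≠ 0 := by
    rintro rfl
    exact ht isAlgebraic_zero
  rw [plAbv_apply w ht0]
  change 0 ≤ w.v t at hw
  exact zpow_le_one_of_nonpos₀ (by norm_num) (by omega)

end

section
variable [IsAlgClosed k]

/-- an algebraic element is a constant -/
lemma const_of_isAlgebraic {f : κ} (hf : ¬ Transcendental k f) : ∃ c : k, algebraMap k κ c = f := by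
  rw [Transcendental, not_not] at hf
  have h1 : IsIntegral k f := hf.isIntegral
  have h2 : (minpoly k f).degree = 1 :=
    IsAlgClosed.degree_eq_one_of_irreducible k (minpoly.irreducible h1)
  have h3 := minpoly.mem_range_of_degree_eq_one k f h2
  exact h3

lemma adjoin_const (c : k) : k⟮algebraMap k κ c⟯ = ⊥ := by
  rw [IntermediateField.adjoin_simple_eq_bot_iff]
  exact IntermediateField.algebraMap_mem ⊥ c

/-- the height of a constant is zero -/
theorem ht_const (h : FF1 k κ) (c : k) : ht k (algebraMap k κ c) = 0 := by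
  rw [ht, adjoin_const]
  obtain ⟨x, hx, -⟩ := h
  apply Module.finrank_of_infinite_dimensional
  intro hfin
  haveI : FiniteDimensional k (⊥ : IntermediateField k κ) :=
    Module.Finite.equiv (IntermediateField.botEquiv k κ).symm.toLinearEquiv
  haveI : FiniteDimensional k κ := Module.Finite.trans (⊥ : IntermediateField k κ) κ
  exact hx (Algebra.IsAlgebraic.isAlgebraic x)

lemma adjoin_inv (f : κ) : k⟮f⁻¹⟯ = k⟮f⟯ := by
  apply le_antisymm
  · rw [IntermediateField.adjoin_simple_le_iff]
    exact IntermediateField.inv_mem _ (IntermediateField.mem_adjoin_simple_self k f)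
  · rw [IntermediateField.adjoin_simple_le_iff]
    have := IntermediateField.inv_mem _ (IntermediateField.mem_adjoin_simple_self k f⁻¹)
    rwa [inv_inv] at this

lemma v_inv (w : Pl k κ) (f : κ) : w.v f⁻¹ = - w.v f := by
  by_cases hf : f = 0
  · simp [hf, w.v_zero]
  · have h1 := w.v_mul f f⁻¹ hf (inv_ne_zero hf)
    rw [mul_inv_cancel₀ hf] at h1
    have h2 : w.v 1 = 0 := by simpa using w.v_triv 1
    omega

/-- **Chapter FF.** -/
theorem f1 : F1Statement := by
  intro k κ _ _ _ _ _ h f
  by_cases hf : Transcendental k f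
  · have hf' : Transcendental k f⁻¹ := by
      intro halg
      apply hf
      have := halg.inv
      rwa [inv_inv] at this
    haveI := FF1_finiteDimensional h hf'
    obtain ⟨h1, h2⟩ := zeros (κ := κ) f⁻¹ hf'
    have h3 : (fun v : Pl k κ => pp v f) = fun v : Pl k κ => (v.v f⁻¹).toNat := by
      funext v
      rw [pp, v_inv]
    rw [h3]
    refine ⟨h1, ?_⟩
    rw [h2, ht, adjoin_inv]
  · obtain ⟨c, rfl⟩ := const_of_isAlgebraic hf
    have h3 : (fun v : Pl k κ => pp v (algebraMap k κ c)) = fun v : Pl k κ => 0 := by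
      funext v
      rw [pp, v.v_triv]
      simp
    rw [h3, ht_const h]
    simp

end

end Pool.Agent.Lib.MP_43d240_ag.H2
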