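import Pool.Agent.Lib.MP_43d240_ag.H2.Dede

/-!
# Function fields of one variable: normalised absolute values and the degree formula
-/

set_option linter.all false

namespace Pool.Agent.Lib.MP_43d240_ag.H2

open IsDedekindDomain IntermediateField
open scoped IntermediateField.algebraAdjoinAdjoin

/-- `v` is a nonarchimedean absolute value of `κ`, trivial on `k`, with value group `2 ^ ℤ`. -/
def IsNormAbv (k : Type*) [Field k] {κ : Type*} [Field κ] [Algebra k κ]
    (v : AbsoluteValue κ ℝ) : Prop :=
  IsNonarchimedean v ∧ (∀ c : k, c ≠ 0 → v (algebraMap k κ c) = 1) ∧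
  (∀ x : κ, x ≠ 0 → ∃ n : ℤ, v x = 2 ^ n) ∧ ∃ x : κ, v x = 2⁻¹

section

variable {k κ : Type*} [Field k] [Field κ] [Algebra k κ]

/-- a nonarchimedean absolute value is `≤ 1` on integral elements -/
lemma le_one_of_isIntegral {A : Type*} [CommRing A] [Algebra A κ] (v : AbsoluteValue κ ℝ)
    (hv : IsNonarchimedean v) (hA : ∀ a : A, v (algebraMap A κ a) ≤ 1) (x : κ)
    (hx : IsIntegral A x) : v x ≤ 1 := by
  by_contra hcon
  push Not at hcon
  obtain ⟨p, hp, hpx⟩ := hx
  have hx0 : 0 < v x := by linarith
  rw [Polynomial.eval₂_eq_sum_range, Finset.sum_range_succ, hp.coeff_natDegree, map_one, one_mul] at hpx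
  have h1 : x ^ p.natDegree = - ∑ i ∈ Finset.range p.natDegree, algebraMap A κ (p.coeff i) * x ^ i := by
    linear_combination hpx
  have h2 : v (x ^ p.natDegree) < v (x ^ p.natDegree) := by
    conv_lhs => rw [h1]
    rw [AbsoluteValue.map_neg]
    by_cases hn : p.natDegree = 0
    · rw [hn] at h1
      simp at h1
    · have hne : (Finset.range p.natDegree).Nonempty := by simpa using hn
      obtain ⟨i, hi, hle⟩ := hv.finset_image_add_of_nonempty
        (fun i => algebraMap A κ (p.coeff i) * x ^ i) hne
      refine hle.trans_lt ?_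
      rw [map_mul, map_pow, map_pow]
      have hi' : i < p.natDegree := by simpa using hi
      calc v (algebraMap A κ (p.coeff i)) * v x ^ i ≤ 1 * v x ^ i := by
            gcongr
            exact hA _
        _ = v x ^ i := one_mul _
        _ < v x ^ p.natDegree := pow_lt_pow_right₀ hcon hi'
  exact lt_irrefl _ h2

lemma const_le_one {v : AbsoluteValue κ ℝ} (hv : IsNormAbv k v) (c : k) :
    v (algebraMap k κ c) ≤ 1 := by
  by_cases hc : c = 0
  · simp [hc]
  · exact (hv.2.1 c hc).le

lemma adjoin_le_one {v : AbsoluteValue κ ℝ} (hv : IsNormAbv k v) {t : κ} (ht : v t ≤ 1)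
    (a : Algebra.adjoin k {t}) : v (a : κ) ≤ 1 := by
  obtain ⟨a, ha⟩ := a
  change v a ≤ 1
  induction ha using Algebra.adjoin_induction with
  | mem x hx => simp only [Set.mem_singleton_iff] at hx; rw [hx]; exact ht
  | algebraMap r => exact const_le_one hv r
  | add x y _ _ hx hy => exact (hv.1 x y).trans (max_le hx hy)
  | mul x y _ _ hx hy =>
    rw [map_mul]
    calc v x * v y ≤ 1 * 1 := by gcongr
      _ = 1 := one_mul 1

variable (t : κ)

abbrev AA (k : Type*) {κ : Type*} [Field k] [Field κ] [Algebra k κ] (t : κ) := Algebra.adjoin k {t}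
abbrev BB (k : Type*) {κ : Type*} [Field k] [Field κ] [Algebra k κ] (t : κ) :=
  integralClosure (Algebra.adjoin k {t}) κ

noncomputable def eqPoly (ht : Transcendental k t) : Polynomial k ≃ₐ[k] Algebra.adjoin k {t} :=
  (AlgEquiv.ofInjective (Polynomial.aeval t) (transcendental_iff_injective.1 ht)).trans
    (Subalgebra.equivOfEq _ _ (Algebra.adjoin_singleton_eq_range_aeval k t).symm)

lemma eqPoly_X (ht : Transcendental k t) : ((eqPoly t ht Polynomial.X : Algebra.adjoin k {t}) : κ) = t := by
  simp [eqPoly]

lemma isPIR_AA (ht : Transcendental k t) : IsPrincipalIdealRing (AA k t) :=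
  IsPrincipalIdealRing.of_surjective (eqPoly t ht).toRingEquiv.toRingHom (eqPoly t ht).surjective

section charts

variable [CharZero k] (ht : Transcendental k t) [FiniteDimensional k⟮t⟯ κ]

include ht in
lemma isDedekind_AA : IsDedekindDomain (AA k t) := by
  haveI := isPIR_AA t ht
  infer_instance

include ht in
lemma isDedekind_BB : IsDedekindDomain (BB k t) := by
  haveI := isDedekind_AA t ht
  haveI : Algebra.IsSeparable k⟮t⟯ κ := by
    haveI : CharZero k⟮t⟯ := charZero_of_injective_algebraMap (algebraMap k k⟮t⟯).injective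
    infer_instance
  exact integralClosure.isDedekindDomain (AA k t) k⟮t⟯ κ

omit [CharZero k] in
lemma isFrac_BB : IsFractionRing (BB k t) κ :=
  integralClosure.isFractionRing_of_finite_extension k⟮t⟯ κ

include ht in
lemma finite_BB : Module.Finite (AA k t) (BB k t) := by
  haveI := isDedekind_AA t ht
  haveI : Algebra.IsSeparable k⟮t⟯ κ := by
    haveI : CharZero k⟮t⟯ := charZero_of_injective_algebraMap (algebraMap k k⟮t⟯).injective
    infer_instance
  exact IsIntegralClosure.finite (AA k t) k⟮t⟯ κ (BB k t)

end charts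

end

end Pool.Agent.Lib.MP_43d240_ag.H2
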