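import Pool.Agent.Lib.MP_43d240_ag.H2.Local
import Pool.Agent.Lib.MP_43d240_ag.H2.F1c

/-!
# Global height identities: product formula, parallelogram law for abscissae
-/

set_option linter.all false

namespace Pool.Agent.Lib.MP_43d240_ag.H2

open Pool.Agent.PI

variable {k κ : Type} [Field k] [IsAlgClosed k] [CharZero k] [Field κ] [Algebra k κ]

lemma pp_supp (h : FF1 k κ) (f : κ) : (Function.support fun v : Pl k κ => (pp v f : ℤ)).Finite := by
  refine (f1 k κ h f).1.subset ?_
  intro v hv
  simpa using hv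

lemma sum_pp (h : FF1 k κ) (f : κ) : ∑ᶠ v : Pl k κ, (pp v f : ℤ) = ht k f := by
  rw [← (f1 k κ h f).2]
  exact ((Nat.castAddMonoidHom ℤ).map_finsum (f1 k κ h f).1).symm

lemma v_eq_pp (v : Pl k κ) (f : κ) : v.v f = (pp v f⁻¹ : ℤ) - pp v f := by
  rw [pp, pp, v_inv]
  omega

lemma v_supp (h : FF1 k κ) (f : κ) : (Function.support fun v : Pl k κ => v.v f).Finite := by
  refine ((pp_supp h f).union (pp_supp h f⁻¹)).subset ?_
  intro v hv
  by_contra hcon
  rw [Set.mem_union, not_or, Function.notMem_support, Function.notMem_support] at hcon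
  apply hv
  dsimp only
  rw [v_eq_pp, hcon.1, hcon.2, sub_zero]

/-- the product formula -/
theorem sum_v (h : FF1 k κ) (f : κ) : ∑ᶠ v : Pl k κ, v.v f = 0 := by
  have h1 : (fun v : Pl k κ => v.v f) = fun v => (pp v f⁻¹ : ℤ) - pp v f := by
    funext v; exact v_eq_pp v f
  rw [h1, finsum_sub_distrib (pp_supp h f⁻¹) (pp_supp h f), sum_pp h, sum_pp h, ht, ht, adjoin_inv,
    sub_self]

/-- parallelogram law for abscissae -/
theorem par_x (h : FF1 k κ) {x1 x2 x3 x4 : κ} (hne : x1 ≠ x2)
    (hadd : (x3 + x4) * (x1 - x2) ^ 2 = 2 * ((x1 + x2) * (x1 * x2 - 1)))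
    (hmul : x3 * x4 * (x1 - x2) ^ 2 = (x1 * x2 + 1) ^ 2) :
    ht k x3 + ht k x4 = 2 * ht k x1 + 2 * ht k x2 := by
  have h0 : (ht k x3 : ℤ) + ht k x4 = 2 * ht k x1 + 2 * ht k x2 := by
    rw [← sum_pp h, ← sum_pp h, ← sum_pp h, ← sum_pp h,
      ← finsum_add_distrib (pp_supp h x3) (pp_supp h x4)]
    have h1 : (fun v : Pl k κ => (pp v x3 : ℤ) + pp v x4) =
        fun v => (2 * (pp v x1 : ℤ) + 2 * pp v x2) + v.v ((x1 - x2) ^ 2) := by
      funext v
      exact local_par_pp v hne hadd hmul
    have hs1 : (Function.support fun v : Pl k κ => 2 * (pp v x1 : ℤ)).Finite := by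
      refine (pp_supp h x1).subset ?_
      intro v hv
      simpa using hv
    have hs2 : (Function.support fun v : Pl k κ => 2 * (pp v x2 : ℤ)).Finite := by
      refine (pp_supp h x2).subset ?_
      intro v hv
      simpa using hv
    have hs3 : (Function.support fun v : Pl k κ => 2 * (pp v x1 : ℤ) + 2 * (pp v x2 : ℤ)).Finite := by
      refine (hs1.union hs2).subset ?_
      exact Function.support_add _ _
    rw [h1, finsum_add_distrib hs3 (v_supp h _), sum_v h, add_zero, finsum_add_distrib hs1 hs2,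
      ← mul_finsum, ← mul_finsum]
  exact_mod_cast h0

/-- two forms `4(x³-x)` and `(x²+1)²` -/
lemma two_forms {κ : Type*} [Field κ] (v : AbsoluteValue κ ℝ) (hv : IsNonarchimedean v)
    (h2 : v 2 = 1) (x : κ) :
    max (v (4 * (x ^ 3 - x))) (v ((x ^ 2 + 1) ^ 2)) = (max 1 (v x)) ^ 4 := by
  have h4 : v 4 = 1 := by
    have : (4 : κ) = 2 * 2 := by norm_num
    rw [this, map_mul, h2, one_mul]
  have hx0 := v.nonneg x
  rw [map_mul, h4, one_mul]
  rcases le_or_gt (v x) 1 with h | h
  · rw [max_eq_left h, one_pow]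
    have hx2 : v (x ^ 2) ≤ 1 := by rw [map_pow]; exact pow_le_one₀ hx0 h
    have hx3 : v (x ^ 3) ≤ 1 := by rw [map_pow]; exact pow_le_one₀ hx0 h
    have a1 : v (x ^ 3 - x) ≤ 1 := (na_sub v hv _ _).trans (max_le hx3 h)
    have a2 : v (x ^ 2 + 1) ≤ 1 := (na_add v hv _ _).trans (max_le hx2 (by rw [map_one]))
    apply le_antisymm
    · apply max_le a1
      rw [map_pow]
      exact pow_le_one₀ (v.nonneg _) a2
    · by_contra hcon
      push Not at hcon
      rw [max_lt_iff] at hcon
      obtain ⟨c1, c2⟩ := hcon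
      rw [map_pow] at c2
      have c2' : v (x ^ 2 + 1) < 1 := by
        by_contra hc
        push Not at hc
        have : 1 ≤ v (x ^ 2 + 1) ^ 2 := one_le_pow₀ hc
        linarith
      have e1 : v (x ^ 2) = 1 := by
        apply le_antisymm hx2
        by_contra hc
        push Not at hc
        have : v 1 < 1 := by
          have h5 : (1 : κ) = (x ^ 2 + 1) - x ^ 2 := by ring
          rw [h5]
          exact (na_sub v hv _ _).trans_lt (max_lt c2' hc)
        rw [map_one] at this
        exact lt_irrefl _ this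
      have e2 : v x = 1 := by
        apply le_antisymm h
        by_contra hc
        push Not at hc
        rw [map_pow] at e1
        have : v x ^ 2 < 1 := pow_lt_one₀ hx0 hc (by norm_num)
        linarith
      have e3 : v (x ^ 2 - 1) < 1 := by
        have : x ^ 3 - x = x * (x ^ 2 - 1) := by ring
        rw [this, map_mul, e2, one_mul] at c1
        exact c1
      have : v 2 < 1 := by
        have h5 : (2 : κ) = (x ^ 2 + 1) - (x ^ 2 - 1) := by ring
        rw [h5]
        exact (na_sub v hv _ _).trans_lt (max_lt c2' e3)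
      rw [h2] at this
      exact lt_irrefl _ this
  · rw [max_eq_right h.le]
    have hx2 : v (x ^ 2 + 1) = v x ^ 2 := by
      rw [na_add_eq_left v hv, map_pow]
      rw [map_one, map_pow]
      exact one_lt_pow₀ h (by norm_num)
    have hx3 : v (x ^ 3 - x) = v x ^ 3 := by
      rw [sub_eq_add_neg, na_add_eq_left v hv, map_pow]
      rw [AbsoluteValue.map_neg, map_pow]
      calc v x = v x ^ 1 := (pow_one _).symm
        _ < v x ^ 3 := pow_lt_pow_right₀ h (by norm_num)
    rw [map_pow, hx2, hx3, ← pow_mul]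
    apply max_eq_right
    exact pow_le_pow_right₀ h.le (by norm_num)

/-- duplication -/
theorem dup_x (h : FF1 k κ) {x X : κ} (hne : x ^ 3 - x ≠ 0)
    (hX : X * (4 * (x ^ 3 - x)) = (x ^ 2 + 1) ^ 2) : ht k X = 4 * ht k x := by
  have hne4 : 4 * (x ^ 3 - x) ≠ 0 := by
    haveI : CharZero κ := charZero_of_injective_algebraMap (algebraMap k κ).injective
    exact mul_ne_zero (by norm_num) hne
  have hloc : ∀ v : Pl k κ, (pp v X : ℤ) = 4 * pp v x + v.v (4 * (x ^ 3 - x)) := by
    intro v
    have h1 := two_forms (plAbv v) (plAbv_norm v).1 (plAbv_two v) x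
    have hpos : 0 < plAbv v (4 * (x ^ 3 - x)) := by
      rw [AbsoluteValue.pos_iff]
      exact hne4
    have h2 : max 1 (plAbv v X) * plAbv v (4 * (x ^ 3 - x)) = (max 1 (plAbv v x)) ^ 4 := by
      rw [← h1, max_mul_of_nonneg _ _ hpos.le, one_mul, ← map_mul, hX]
    rw [max_one_plAbv, max_one_plAbv, plAbv_apply v hne4] at h2
    have h3 : (2 : ℝ) ^ ((pp v X : ℤ) + (- v.v (4 * (x ^ 3 - x)))) = 2 ^ ((pp v x : ℤ) * 4) := by
      rw [zpow_add₀ (by norm_num), zpow_mul, zpow_natCast, zpow_natCast]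
      exact_mod_cast h2
    have h4 := zpow_right_injective₀ (by norm_num : (0:ℝ) < 2) (by norm_num) h3
    linarith
  have h0 : (ht k X : ℤ) = 4 * ht k x := by
    rw [← sum_pp h, ← sum_pp h]
    have h1 : (fun v : Pl k κ => (pp v X : ℤ)) =
        fun v => (4 * (pp v x : ℤ)) + v.v (4 * (x ^ 3 - x)) := by
      funext v
      exact hloc v
    have hs1 : (Function.support fun v : Pl k κ => 4 * (pp v x : ℤ)).Finite := by
      refine (pp_supp h x).subset ?_
      intro v hv
      simpa using hv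
    rw [h1, finsum_add_distrib hs1 (v_supp h _), sum_v h, add_zero, ← mul_finsum]
  exact_mod_cast h0

end Pool.Agent.Lib.MP_43d240_ag.H2
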