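import Pool.Agent.Lib.MP_43d240_ag.H2.Pl1

/-!
# Local height identities
-/

set_option linter.all false

namespace Pool.Agent.Lib.MP_43d240_ag.H2

open Pool.Agent.PI

section abv

variable {κ : Type*} [Field κ] (v : AbsoluteValue κ ℝ) (hv : IsNonarchimedean v)

include hv

lemma na_add (x y : κ) : v (x + y) ≤ max (v x) (v y) := hv x y

lemma na_sub (x y : κ) : v (x - y) ≤ max (v x) (v y) := by
  have := hv x (-y)
  rwa [← sub_eq_add_neg, AbsoluteValue.map_neg] at this

lemma na_add_eq_left {x y : κ} (h : v y < v x) : v (x + y) = v x := by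
  apply le_antisymm
  · exact (na_add v hv x y).trans (max_le le_rfl h.le)
  · by_contra hcon
    push Not at hcon
    have h1 : v x ≤ max (v (x + y)) (v y) := by
      have := na_sub v hv (x + y) y
      rwa [add_sub_cancel_right] at this
    exact absurd (max_lt hcon h) (not_lt.2 h1)

lemma na_add_eq_right {x y : κ} (h : v x < v y) : v (x + y) = v y := by
  rw [add_comm]; exact na_add_eq_left v hv h

/-- Gauss' lemma for `(T - a)(T - b)` -/
lemma gauss2 (a b : κ) :
    max 1 (v a) * max 1 (v b) = max 1 (max (v (a + b)) (v (a * b))) := by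
  rw [map_mul]
  have ha0 := v.nonneg a
  have hb0 := v.nonneg b
  have hab := na_add v hv a b
  rcases le_or_gt (v a) 1 with ha | ha <;> rcases le_or_gt (v b) 1 with hb | hb
  · rw [max_eq_left ha, max_eq_left hb, one_mul, eq_comm, max_eq_left]
    apply max_le
    · exact hab.trans (max_le ha hb)
    · exact mul_le_one₀ ha hb0 hb
  · rw [max_eq_left ha, max_eq_right hb.le, one_mul, na_add_eq_right v hv (lt_of_le_of_lt ha hb)]
    rw [max_eq_left (a := v b) (b := v a * v b), max_eq_right hb.le]
    calc v a * v b ≤ 1 * v b := by gcongr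
      _ = v b := one_mul _
  · rw [max_eq_right ha.le, max_eq_left hb, mul_one, na_add_eq_left v hv (lt_of_le_of_lt hb ha)]
    rw [max_eq_left (a := v a) (b := v a * v b), max_eq_right ha.le]
    calc v a * v b ≤ v a * 1 := by gcongr
      _ = v a := mul_one _
  · rw [max_eq_right ha.le, max_eq_right hb.le, max_eq_right (a := v (a + b)),
      max_eq_right]
    · nlinarith
    · refine hab.trans (max_le ?_ ?_) <;> nlinarith

/-- the three forms `s² - 4p`, `2s(p-1)`, `(p+1)²` have no common zero -/
lemma three_forms (h2 : v 2 = 1) (s p : κ) :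
    max (v (s ^ 2 - 4 * p)) (max (v (2 * (s * (p - 1)))) (v ((p + 1) ^ 2))) =
      (max 1 (max (v s) (v p))) ^ 2 := by
  have h4 : v 4 = 1 := by
    have : (4 : κ) = 2 * 2 := by norm_num
    rw [this, map_mul, h2, one_mul]
  set S := max 1 (max (v s) (v p)) with hS
  have hS1 : 1 ≤ S := le_max_left _ _
  have hs : v s ≤ S := (le_max_left _ _).trans (le_max_right _ _)
  have hp : v p ≤ S := (le_max_right _ _).trans (le_max_right _ _)
  have hs0 := v.nonneg s
  have hp0 := v.nonneg p
  have hpm : v (p - 1) ≤ S := (na_sub v hv p 1).trans (max_le hp (by rw [map_one]; exact hS1))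
  have hpp : v (p + 1) ≤ S := (na_add v hv p 1).trans (max_le hp (by rw [map_one]; exact hS1))
  have hpm0 := v.nonneg (p - 1)
  have hpp0 := v.nonneg (p + 1)
  have hSS : S ≤ S ^ 2 := by nlinarith
  rw [map_mul v 2, h2, one_mul, map_mul v s, map_pow]
  apply le_antisymm
  · apply max_le
    · refine (na_sub v hv _ _).trans (max_le ?_ ?_)
      · rw [map_pow]; gcongr
      · rw [map_mul, h4, one_mul]
        exact hp.trans hSS
    · apply max_le
      · rw [pow_two]; gcongr
      · gcongr
  · by_contra hcon
    push Not at hcon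
    rw [max_lt_iff, max_lt_iff] at hcon
    obtain ⟨c1, c2, c3⟩ := hcon
    have c3' : v (p + 1) < S := lt_of_pow_lt_pow_left₀ 2 (by linarith) c3
    have c2' : v s < S ∨ v (p - 1) < S := by
      by_contra h
      push Not at h
      have : S ^ 2 ≤ v s * v (p - 1) := by
        rw [pow_two]
        exact mul_le_mul h.1 h.2 (by linarith) hs0
      linarith
    rcases c2' with h | h
    · -- `|s| < S`
      rcases le_or_gt (v p) 1 with h1 | h1
      · have hS' : S = 1 := by
          apply le_antisymm _ hS1
          by_contra hS2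
          push Not at hS2
          have : S < S := by
            conv_lhs => rw [hS]
            exact max_lt hS2 (max_lt h (lt_of_le_of_lt h1 hS2))
          exact lt_irrefl _ this
        rw [hS'] at h c1 c3'
        have hs2 : v (s ^ 2) < 1 := by
          rw [map_pow]
          exact pow_lt_one₀ hs0 h (by norm_num)
        have h5 : v (4 * p) < 1 := by
          have : 4 * p = s ^ 2 - (s ^ 2 - 4 * p) := by ring
          rw [this]
          exact (na_sub v hv _ _).trans_lt (max_lt hs2 (by simpa using c1))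
        rw [map_mul, h4, one_mul] at h5
        have h6 : v 1 < 1 := by
          have : (1 : κ) = (p + 1) - p := by ring
          rw [this]
          exact (na_sub v hv _ _).trans_lt (max_lt c3' h5)
        rw [map_one] at h6
        exact lt_irrefl _ h6
      · have h5 : v (p + 1) = v p := na_add_eq_left v hv (by rw [map_one]; exact h1)
        rw [h5] at c3'
        have : S < S := by
          conv_lhs => rw [hS]
          exact max_lt (h1.trans c3') (max_lt h c3')
        exact lt_irrefl _ this
    · -- `|p - 1| < S`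
      have h5 : v 2 < S := by
        have : (2 : κ) = (p + 1) - (p - 1) := by ring
        rw [this]
        exact (na_sub v hv _ _).trans_lt (max_lt c3' h)
      have h6 : v (2 * p) < S := by
        have : 2 * p = (p + 1) + (p - 1) := by ring
        rw [this]
        exact (na_add v hv _ _).trans_lt (max_lt c3' h)
      rw [h2] at h5
      rw [map_mul, h2, one_mul] at h6
      have h7 : v s = S := by
        apply le_antisymm hs
        by_contra h8
        push Not at h8
        have : S < S := by
          conv_lhs => rw [hS]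
          exact max_lt h5 (max_lt h8 h6)
        exact lt_irrefl _ this
      have h8 : v (s ^ 2 - 4 * p) = S ^ 2 := by
        rw [sub_eq_add_neg, na_add_eq_left v hv, map_pow, h7]
        rw [AbsoluteValue.map_neg, map_mul, h4, one_mul, map_pow, h7]
        nlinarith
      linarith

/-- the local parallelogram law -/
lemma local_par (h2 : v 2 = 1) {x1 x2 x3 x4 : κ} (hne : x1 ≠ x2)
    (hadd : (x3 + x4) * (x1 - x2) ^ 2 = 2 * ((x1 + x2) * (x1 * x2 - 1)))
    (hmul : x3 * x4 * (x1 - x2) ^ 2 = (x1 * x2 + 1) ^ 2) :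
    max 1 (v x3) * max 1 (v x4) * v ((x1 - x2) ^ 2) = (max 1 (v x1) * max 1 (v x2)) ^ 2 := by
  rw [gauss2 v hv x3 x4, gauss2 v hv x1 x2]
  have hpos : 0 < v ((x1 - x2) ^ 2) := by
    rw [AbsoluteValue.pos_iff]
    exact pow_ne_zero _ (sub_ne_zero.2 hne)
  rw [← three_forms v hv h2 (x1 + x2) (x1 * x2), max_mul_of_nonneg _ _ hpos.le, one_mul,
    max_mul_of_nonneg _ _ hpos.le, ← map_mul, ← map_mul, hadd, hmul]
  congr 2
  ring

end abv

section pl

variable {k κ : Type} [Field k] [Field κ] [Algebra k κ]

lemma max_one_plAbv (w : Pl k κ) (x : κ) : max 1 (plAbv w x) = 2 ^ (pp w x) := by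
  by_cases hx : x = 0
  · simp [hx, pp, w.v_zero]
  · rw [plAbv_apply w hx, pp, ← zpow_natCast, Int.toNat_eq_max]
    rcases le_or_gt 0 (- w.v x) with h | h
    · rw [max_eq_left h, max_eq_right]
      exact one_le_zpow₀ (by norm_num) h
    · rw [max_eq_right h.le, zpow_zero, max_eq_left]
      exact zpow_le_one_of_nonpos₀ (by norm_num) h.le

lemma plAbv_two [CharZero k] (w : Pl k κ) : plAbv w 2 = 1 := by
  have := (plAbv_norm w).2.1 2 (by norm_num)
  rwa [map_ofNat] at this

lemma exp_aux (a b d e : ℕ) (c : ℤ) (h : (2 : ℝ) ^ a * 2 ^ b * 2 ^ (-c) = (2 ^ d * 2 ^ e) ^ 2) :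
    (a + b : ℤ) = 2 * d + 2 * e + c := by
  have h1 : (2 : ℝ) ^ ((a : ℤ) + b + (-c)) = 2 ^ (((d : ℤ) + e) * 2) := by
    rw [zpow_add₀ (by norm_num), zpow_add₀ (by norm_num), zpow_mul, zpow_add₀ (by norm_num),
      zpow_natCast, zpow_natCast, zpow_natCast, zpow_natCast]
    exact_mod_cast h
  have h2 := zpow_right_injective₀ (by norm_num : (0:ℝ) < 2) (by norm_num) h1
  linarith

theorem local_par_pp [CharZero k] (w : Pl k κ) {x1 x2 x3 x4 : κ} (hne : x1 ≠ x2)
    (hadd : (x3 + x4) * (x1 - x2) ^ 2 = 2 * ((x1 + x2) * (x1 * x2 - 1)))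
    (hmul : x3 * x4 * (x1 - x2) ^ 2 = (x1 * x2 + 1) ^ 2) :
    (pp w x3 + pp w x4 : ℤ) = 2 * pp w x1 + 2 * pp w x2 + w.v ((x1 - x2) ^ 2) := by
  have h := local_par (plAbv w) (plAbv_norm w).1 (plAbv_two w) hne hadd hmul
  rw [max_one_plAbv, max_one_plAbv, max_one_plAbv, max_one_plAbv,
    plAbv_apply w (pow_ne_zero _ (sub_ne_zero.2 hne))] at h
  exact exp_aux _ _ _ _ _ h

end pl

end Pool.Agent.Lib.MP_43d240_ag.H2
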