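import Pool.Agent.Lib.MP_43d240_ag.H2.Glob

/-!
# Heights of pairs and of the roots of `T³ - T - (mT + c)²`
-/

set_option linter.all false

namespace Pool.Agent.Lib.MP_43d240_ag.H2

open Pool.Agent.PI

section abv

variable {κ : Type*} [Field κ] (v : AbsoluteValue κ ℝ) (hv : IsNonarchimedean v)

include hv

/-- Gauss' lemma for `(T² - sT + p)(T - t)` -/
lemma gauss21 (s p t : κ) :
    max 1 (max (v s) (v p)) * max 1 (v t) =
      max 1 (max (v (s + t)) (max (v (p + s * t)) (v (p * t)))) := by
  set S := max 1 (max (v s) (v p)) with hS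
  have hS1 : 1 ≤ S := le_max_left _ _
  have hs : v s ≤ S := (le_max_left _ _).trans (le_max_right _ _)
  have hp : v p ≤ S := (le_max_right _ _).trans (le_max_right _ _)
  have hs0 := v.nonneg s
  have hp0 := v.nonneg p
  have ht0 := v.nonneg t
  have hcase : S = 1 ∧ v s < 1 ∧ v p < 1 ∨ v p = S ∨ v s = S ∧ v p < S ∨ False := by
    rcases lt_or_ge (v p) S with h1 | h1
    · rcases lt_or_ge (v s) S with h2 | h2
      · left
        have h3 : S = 1 := by
          apply le_antisymm _ hS1
          by_contra hcon
          push Not at hcon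
          have : S < S := by
            conv_lhs => rw [hS]
            exact max_lt hcon (max_lt h2 h1)
          exact lt_irrefl _ this
        exact ⟨h3, h3 ▸ h2, h3 ▸ h1⟩
      · right; right; left
        exact ⟨le_antisymm hs h2, h1⟩
    · right; left
      exact le_antisymm hp h1
  rcases le_or_gt (v t) 1 with ht | ht
  · rw [max_eq_left ht, mul_one]
    have hst : v (s * t) ≤ v s := by
      rw [map_mul]
      calc v s * v t ≤ v s * 1 := by gcongr
        _ = v s := mul_one _
    have hpt : v (p * t) ≤ v p := by
      rw [map_mul]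
      calc v p * v t ≤ v p * 1 := by gcongr
        _ = v p := mul_one _
    apply le_antisymm
    · rcases le_or_gt S 1 with h1 | h1
      · exact h1.trans (le_max_left _ _)
      · rcases le_or_gt S (v s) with h2 | h2
        · have h3 : v (s + t) = v s := na_add_eq_left v hv (by linarith)
          rw [h3]
          exact h2.trans ((le_max_left _ _).trans (le_max_right _ _))
        · have h4 : v p = S := by
            apply le_antisymm hp
            by_contra hcon
            push Not at hcon
            have : S < S := by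
              conv_lhs => rw [hS]
              exact max_lt h1 (max_lt h2 hcon)
            exact lt_irrefl _ this
          have h3 : v (p + s * t) = v p := na_add_eq_left v hv (by linarith)
          rw [h3, h4]
          exact ((le_max_left _ _).trans (le_max_right _ _)).trans (le_max_right _ _)
    · apply max_le hS1
      apply max_le
      · exact (na_add v hv _ _).trans (max_le hs (ht.trans hS1))
      · apply max_le
        · exact (na_add v hv _ _).trans (max_le hp (hst.trans hs))
        · exact hpt.trans hp
  · rw [max_eq_right ht.le]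
    apply le_antisymm
    · rcases hcase with ⟨h1, h2, h3⟩ | h1 | ⟨h1, h2⟩ | h1
      · rw [h1, one_mul]
        have : v (s + t) = v t := na_add_eq_right v hv (by linarith)
        rw [this]
        exact (le_max_left _ _).trans (le_max_right _ _)
      · have : v (p * t) = S * v t := by rw [map_mul, h1]
        rw [← this]
        exact ((le_max_right _ _).trans (le_max_right _ _)).trans (le_max_right _ _)
      · have h3 : v (p + s * t) = v (s * t) := by
          apply na_add_eq_right v hv
          rw [map_mul, h1]
          nlinarith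
        have : v (p + s * t) = S * v t := by rw [h3, map_mul, h1]
        rw [← this]
        exact ((le_max_left _ _).trans (le_max_right _ _)).trans (le_max_right _ _)
      · exact h1.elim
    · have hSt : S ≤ S * v t := by nlinarith
      have htS : v t ≤ S * v t := by nlinarith
      apply max_le (hS1.trans hSt)
      apply max_le
      · exact (na_add v hv _ _).trans (max_le (hs.trans hSt) htS)
      · apply max_le
        · refine (na_add v hv _ _).trans (max_le (hp.trans hSt) ?_)
          rw [map_mul]
          gcongr
        · rw [map_mul]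
          gcongr

/-- the local identity for the three intersection points -/
lemma local_mc (h2 : v 2 = 1) {m c t1 t2 t3 : κ} (e1 : t1 + t2 + t3 = m ^ 2)
    (e2 : t1 * t2 + t1 * t3 + t2 * t3 = - (1 + 2 * m * c)) (e3 : t1 * t2 * t3 = c ^ 2) :
    max 1 (v t1) * max 1 (v t2) * max 1 (v t3) = (max 1 (max (v m) (v c))) ^ 2 := by
  rw [gauss2 v hv, gauss21 v hv]
  have e2' : t1 * t2 + (t1 + t2) * t3 = - (1 + 2 * m * c) := by linear_combination e2
  rw [e1, e2', e3, AbsoluteValue.map_neg, map_pow, map_pow]
  set S := max 1 (max (v m) (v c)) with hS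
  have hS1 : 1 ≤ S := le_max_left _ _
  have hm : v m ≤ S := (le_max_left _ _).trans (le_max_right _ _)
  have hc : v c ≤ S := (le_max_right _ _).trans (le_max_right _ _)
  have hm0 := v.nonneg m
  have hc0 := v.nonneg c
  have hmc : v (1 + 2 * m * c) ≤ S ^ 2 := by
    refine (na_add v hv _ _).trans (max_le ?_ ?_)
    · rw [map_one]; nlinarith
    · rw [map_mul, map_mul, h2, one_mul, pow_two]
      gcongr
  apply le_antisymm
  · apply max_le (by nlinarith)
    apply max_le (by gcongr)
    apply max_le hmc (by gcongr)
  · have hcase : S = 1 ∨ v m = S ∨ v c = S := by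
      by_contra hcon
      push Not at hcon
      obtain ⟨h1, h3, h4⟩ := hcon
      have : S < S := by
        conv_lhs => rw [hS]
        exact max_lt (lt_of_le_of_ne hS1 (Ne.symm h1)) (max_lt (lt_of_le_of_ne hm h3) (lt_of_le_of_ne hc h4))
      exact lt_irrefl _ this
    rcases hcase with h | h | h
    · rw [h, one_pow]; exact le_max_left _ _
    · rw [← h]
      exact (le_max_left _ _).trans (le_max_right _ _)
    · rw [← h]
      exact ((le_max_right _ _).trans (le_max_right _ _)).trans (le_max_right _ _)

end abv

variable {k κ : Type} [Field k] [Field κ] [Algebra k κ]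

lemma max_one_max_plAbv (w : Pl k κ) (m c : κ) :
    max 1 (max (plAbv w m) (plAbv w c)) = 2 ^ (max (pp w m) (pp w c)) := by
  have h : max 1 (max (plAbv w m) (plAbv w c)) = max (max 1 (plAbv w m)) (max 1 (plAbv w c)) := by
    rw [max_max_max_comm, max_self]
  rw [h, max_one_plAbv, max_one_plAbv]
  rcases le_total (pp w m) (pp w c) with h1 | h1
  · rw [max_eq_right h1, max_eq_right]
    exact pow_le_pow_right₀ (by norm_num) h1
  · rw [max_eq_left h1, max_eq_left]
    exact pow_le_pow_right₀ (by norm_num) h1

theorem local_mc_pp [CharZero k] (w : Pl k κ) {m c t1 t2 t3 : κ} (e1 : t1 + t2 + t3 = m ^ 2)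
    (e2 : t1 * t2 + t1 * t3 + t2 * t3 = - (1 + 2 * m * c)) (e3 : t1 * t2 * t3 = c ^ 2) :
    pp w t1 + pp w t2 + pp w t3 = 2 * max (pp w m) (pp w c) := by
  have h := local_mc (plAbv w) (plAbv_norm w).1 (plAbv_two w) e1 e2 e3
  rw [max_one_plAbv, max_one_plAbv, max_one_plAbv, max_one_max_plAbv, ← pow_add, ← pow_add,
    ← pow_mul] at h
  have h2 := pow_right_injective₀ (by norm_num : (0:ℝ) < 2) (by norm_num) h
  omega

/-- at every place at most one `lam` is exceptional -/
lemma bad_unique (w : Pl k κ) (m c : κ) (l l' : k) (hne : l ≠ l')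
    (h : pp w (m + algebraMap k κ l * c) ≠ max (pp w m) (pp w c))
    (h' : pp w (m + algebraMap k κ l' * c) ≠ max (pp w m) (pp w c)) : False := by
  have hn := plAbv_norm w
  set v := plAbv w with hvdef
  have hv := hn.1
  set S := max 1 (max (v m) (v c)) with hS
  have hSe : S = 2 ^ (max (pp w m) (pp w c)) := max_one_max_plAbv w m c
  have hS1 : 1 ≤ S := le_max_left _ _
  have hm : v m ≤ S := (le_max_left _ _).trans (le_max_right _ _)
  have hc : v c ≤ S := (le_max_right _ _).trans (le_max_right _ _)
  have hc0 := v.nonneg c
  have key : ∀ l : k, pp w (m + algebraMap k κ l * c) ≠ max (pp w m) (pp w c) →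
      1 < S ∧ v (m + algebraMap k κ l * c) < S := by
    intro l hl
    have hle : v (m + algebraMap k κ l * c) ≤ S := by
      refine (na_add v hv _ _).trans (max_le hm ?_)
      rw [map_mul]
      calc v (algebraMap k κ l) * v c ≤ 1 * v c := by
            gcongr
            exact const_le_one hn l
        _ ≤ S := by rw [one_mul]; exact hc
    have h1 : max 1 (v (m + algebraMap k κ l * c)) < S := by
      refine lt_of_le_of_ne (max_le hS1 hle) ?_
      intro hcon
      apply hl
      rw [hSe, max_one_plAbv] at hcon
      exact pow_right_injective₀ (by norm_num : (0:ℝ) < 2) (by norm_num) hcon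
    exact ⟨(le_max_left _ _).trans_lt h1, (le_max_right _ _).trans_lt h1⟩
  obtain ⟨hS2, a1⟩ := key l h
  obtain ⟨-, a2⟩ := key l' h'
  have hc' : v c < S := by
    have e : (algebraMap k κ (l - l')) * c = (m + algebraMap k κ l * c) - (m + algebraMap k κ l' * c) := by
      rw [map_sub]; ring
    have e2 : v ((algebraMap k κ (l - l')) * c) = v c := by
      rw [map_mul, hn.2.1 _ (sub_ne_zero.2 hne), one_mul]
    rw [← e2, e]
    exact (na_sub v hv _ _).trans_lt (max_lt a1 a2)
  have hm' : v m < S := by
    have e : m = (m + algebraMap k κ l * c) - algebraMap k κ l * c := by ring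
    rw [e]
    refine (na_sub v hv _ _).trans_lt (max_lt a1 ?_)
    rw [map_mul]
    calc v (algebraMap k κ l) * v c ≤ 1 * v c := by
          gcongr
          exact const_le_one hn l
      _ < S := by rw [one_mul]; exact hc'
  have : S < S := by
    conv_lhs => rw [hS]
    exact max_lt hS2 (max_lt hm' hc')
  exact lt_irrefl _ this

variable [IsAlgClosed k] [CharZero k]

/-- For all but finitely many `l` the height of `m + l c` is the projective height of
`(1 : m : c)`. -/
theorem ht_generic (h : FF1 k κ) (m c : κ) :
    {l : k | ht k (m + algebraMap k κ l * c) ≠ ∑ᶠ v : Pl k κ, max (pp v m) (pp v c)}.Finite := by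
  have hF := (f1 k κ h m).1.union (f1 k κ h c).1
  set F := (Function.support fun v : Pl k κ => pp v m) ∪ (Function.support fun v : Pl k κ => pp v c)
  have hbad : ∀ v : Pl k κ, {l : k | pp v (m + algebraMap k κ l * c) ≠ max (pp v m) (pp v c)}.Finite := by
    intro v
    apply Set.Subsingleton.finite
    intro l hl l' hl'
    by_contra hne
    exact bad_unique v m c l l' hne hl hl'
  refine (hF.biUnion fun v _ => hbad v).subset ?_
  intro l hl
  by_contra hcon
  apply hl
  rw [← (f1 k κ h _).2]
  apply finsum_congr
  intro v
  by_cases hvF : v ∈ F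
  · by_contra hne
    apply hcon
    rw [Set.mem_iUnion₂]
    exact ⟨v, hvF, hne⟩
  · have h1 : pp v m = 0 := by
      by_contra h0
      exact hvF (Or.inl h0)
    have h2 : pp v c = 0 := by
      by_contra h0
      exact hvF (Or.inr h0)
    have h3 := plAbv_norm v
    have h4 : plAbv v m ≤ 1 := by
      have := max_one_plAbv v m
      rw [h1, pow_zero] at this
      rw [← this]; exact le_max_right _ _
    have h5 : plAbv v c ≤ 1 := by
      have := max_one_plAbv v c
      rw [h2, pow_zero] at this
      rw [← this]; exact le_max_right _ _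
    have h6 : plAbv v (m + algebraMap k κ l * c) ≤ 1 := by
      refine (na_add _ h3.1 _ _).trans (max_le h4 ?_)
      rw [map_mul]
      exact mul_le_one₀ (const_le_one h3 l) (AbsoluteValue.nonneg _ _) h5
    have h7 : (2 : ℝ) ^ (pp v (m + algebraMap k κ l * c)) = 2 ^ 0 := by
      rw [← max_one_plAbv, max_eq_left h6, pow_zero]
    have h8 := pow_right_injective₀ (by norm_num : (0:ℝ) < 2) (by norm_num) h7
    rw [h8, h1, h2]
    rfl

/-- The heights of the abscissae of the three intersection points. -/
theorem sum_ht (h : FF1 k κ) {m c t1 t2 t3 : κ} (e1 : t1 + t2 + t3 = m ^ 2)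
    (e2 : t1 * t2 + t1 * t3 + t2 * t3 = - (1 + 2 * m * c)) (e3 : t1 * t2 * t3 = c ^ 2) :
    ht k t1 + ht k t2 + ht k t3 = 2 * ∑ᶠ v : Pl k κ, max (pp v m) (pp v c) := by
  rw [← (f1 k κ h t1).2, ← (f1 k κ h t2).2, ← (f1 k κ h t3).2,
    ← finsum_add_distrib (f1 k κ h t1).1 (f1 k κ h t2).1, ← finsum_add_distrib _ (f1 k κ h t3).1]
  · rw [mul_finsum]
    apply finsum_congr
    intro v
    exact local_mc_pp v e1 e2 e3
  · exact ((f1 k κ h t1).1.union (f1 k κ h t2).1).subset (Function.support_add _ _)

/-- For all but finitely many `l`: `ht t1 + ht t2 + ht t3 = 2 ht (m + l c)`. -/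
theorem sum_ht_generic (h : FF1 k κ) {m c t1 t2 t3 : κ} (e1 : t1 + t2 + t3 = m ^ 2)
    (e2 : t1 * t2 + t1 * t3 + t2 * t3 = - (1 + 2 * m * c)) (e3 : t1 * t2 * t3 = c ^ 2) :
    {l : k | ht k t1 + ht k t2 + ht k t3 ≠ 2 * ht k (m + algebraMap k κ l * c)}.Finite := by
  refine (ht_generic h m c).subset ?_
  intro l hl hcon
  apply hl
  rw [sum_ht h e1 e2 e3, hcon]

end Pool.Agent.Lib.MP_43d240_ag.H2
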