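import Pool.Agent.Lib.MP_43d240_ag.H2.Glob
import Pool.Agent.Lib.MP_43d240_ag.H56.Defs

/-!
# The parallelogram law for the degree of points of `y² = x³ - x`
-/

set_option linter.all false

namespace PiPar

open WeierstrassCurve WeierstrassCurve.Affine Pool.Agent.PI Pool.Agent.Lib.MP_43d240_ag.H2

variable {k : Type} [Field k] [IsAlgClosed k] [CharZero k]

lemma dup_hx {N : Type} [Field N] [Algebra k N] [DecidableEq N] (hN' : IsFF k N) (P : Pt N) :
    hx k (P + P) = 4 * hx k P := by
  haveI : CharZero N := charZero_of_injective_algebraMap (algebraMap k N).injective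
  rcases P with _ | ⟨x, y, h⟩
  · change hx k ((0 : Pt N) + 0) = 4 * hx k (0 : Pt N)
    simp
  · have he : y ^ 2 = x ^ 3 - x := (EF_nonsingular two_ne_zero x y).1 h
    by_cases hy : y = 0
    · have hyy : y = (EF N).negY x y := by rw [EF_negY, hy, neg_zero]
      rw [Point.add_self_of_Y_eq hyy, hx_zero, hx_some]
      have hx3 : x * (x - 1) * (x + 1) = 0 := by
        rw [hy] at he
        linear_combination -he
      have hconst : ∃ c : k, algebraMap k N c = x := by
        rcases mul_eq_zero.1 hx3 with h1 | h1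
        · rcases mul_eq_zero.1 h1 with h2 | h2
          · exact ⟨0, by rw [map_zero, h2]⟩
          · exact ⟨1, by rw [map_one]; linear_combination -h2⟩
        · exact ⟨-1, by rw [map_neg, map_one]; linear_combination -h1⟩
      obtain ⟨c, hc⟩ := hconst
      have : hN k N x = 0 := by
        rw [← hc]
        exact ht_const (k := k) (κ := N) hN' c
      rw [this]
    · have hyy : y ≠ (EF N).negY x y := by
        rw [EF_negY]
        intro hcon
        apply hy
        have : 2 * y = 0 := by linear_combination hcon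
        simpa using this
      rw [Point.add_self_of_Y_ne hyy, hx_some, hx_some]
      have hsl : (EF N).slope x x y y = (3 * x ^ 2 - 1) / (2 * y) := by
        rw [slope_of_Y_ne rfl hyy, EF_negY]
        simp only [EF_a1, EF_a2, EF_a4]
        congr 1 <;> ring
      have hne : x ^ 3 - x ≠ 0 := by
        rw [← he]
        exact pow_ne_zero _ hy
      refine dup_x (k := k) (κ := N) hN' hne ?_
      rw [hsl, addX]
      simp only [EF_a1, EF_a2, zero_mul, add_zero, sub_zero]
      have h4y : (2 * y) ^ 2 = 4 * (x ^ 3 - x) := by rw [← he]; ring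
      have hne4 : 4 * (x ^ 3 - x) ≠ 0 := mul_ne_zero (by norm_num) hne
      have key : (3 * x ^ 2 - 1) ^ 2 / (4 * (x ^ 3 - x)) * (4 * (x ^ 3 - x)) =
        (3 * x ^ 2 - 1) ^ 2 := div_mul_cancel₀ _ hne4
      rw [div_pow, h4y]
      linear_combination key

/-- P1 -/
theorem parallelogram {N : Type} [Field N] [Algebra k N] [DecidableEq N] (hN' : IsFF k N)
    (P Q : Pt N) : hx k (P + Q) + hx k (P - Q) = 2 * hx k P + 2 * hx k Q := by
  haveI : CharZero N := charZero_of_injective_algebraMap (algebraMap k N).injective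
  rcases P with _ | ⟨x1, y1, h1⟩
  · change hx k ((0 : Pt N) + Q) + hx k ((0 : Pt N) - Q) = 2 * hx k (0 : Pt N) + 2 * hx k Q
    rw [zero_add, zero_sub, hx_neg, hx_zero]
    ring
  rcases Q with _ | ⟨x2, y2, h2⟩
  · change hx k ((Point.some x1 y1 h1 : Pt N) + 0) + hx k ((Point.some x1 y1 h1 : Pt N) - 0) =
      2 * hx k (Point.some x1 y1 h1 : Pt N) + 2 * hx k (0 : Pt N)
    rw [add_zero, sub_zero, hx_zero]
    ring
  have e1 : y1 ^ 2 = x1 ^ 3 - x1 := (EF_nonsingular two_ne_zero x1 y1).1 h1
  have e2 : y2 ^ 2 = x2 ^ 3 - x2 := (EF_nonsingular two_ne_zero x2 y2).1 h2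
  by_cases hx12 : x1 = x2
  · subst hx12
    have hyy : (y1 - y2) * (y1 + y2) = 0 := by linear_combination e1 - e2
    rcases mul_eq_zero.1 hyy with h | h
    · have hy : y1 = y2 := by linear_combination h
      subst hy
      rw [sub_self, hx_zero, dup_hx hN']
      ring
    · have hy : y2 = - y1 := by linear_combination h
      subst hy
      have hneg : (Point.some x1 (-y1) h2 : Pt N) = - (Point.some x1 y1 h1 : Pt N) := by
        rw [Point.neg_some]
        congr 1
        rw [EF_negY]
      rw [hneg, add_neg_cancel, sub_neg_eq_add, hx_zero, dup_hx hN', hx_neg]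
      ring
  · have hsub : (Point.some x1 y1 h1 : Pt N) - Point.some x2 y2 h2 =
        Point.some x1 y1 h1 + Point.some x2 (-y2) ((EF_nonsingular two_ne_zero x2 (-y2)).2 (by
          rw [neg_pow]; linear_combination e2)) := by
      rw [sub_eq_add_neg, Point.neg_some]
      congr 2
      rw [EF_negY]
    rw [hsub, Point.add_of_X_ne hx12, Point.add_of_X_ne hx12]
    simp only [hx_some]
    have hd : x1 - x2 ≠ 0 := sub_ne_zero.2 hx12
    refine par_x (k := k) (κ := N) hN' hx12 ?_ ?_
    · rw [slope_of_X_ne hx12, slope_of_X_ne hx12, addX, addX]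
      simp only [EF_a1, EF_a2]
      field_simp
      linear_combination (2 : N) * e1 + 2 * e2
    · rw [slope_of_X_ne hx12, slope_of_X_ne hx12, addX, addX]
      simp only [EF_a1, EF_a2]
      field_simp
      linear_combination (y1^2-y2^2+(x1^3-x1)-(x2^3-x2) - 2*(x1+x2)*(x1-x2)^2) * e1 +
        (-(y1^2-y2^2+(x1^3-x1)-(x2^3-x2)) - 2*(x1+x2)*(x1-x2)^2) * e2

end PiPar
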