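import Pool.Agent.Lib.MP_43d240_ag.H2.Dede

/-!
# The fundamental identity for a prime with algebraically closed residue field
-/

set_option linter.all false

namespace Pool.Agent.Lib.MP_43d240_ag.H2

open IsDedekindDomain

section

variable {A K L B : Type*} [CommRing A] [IsDomain A] [IsDedekindDomain A] [Field K] [Algebra A K]
  [IsFractionRing A K] [Field L] [Algebra A L] [Algebra K L] [IsScalarTower A K L]
  [CommRing B] [IsDedekindDomain B] [Algebra A B] [Algebra B L] [IsScalarTower A B L]
  [IsFractionRing B L] [Module.Finite A B] [FaithfulSMul A B]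

lemma inertia_one (p : Ideal A) [hm : p.IsMaximal] (hp : p ≠ ⊥)
    (hres : letI := Ideal.Quotient.field p; IsAlgClosed (A ⧸ p))
    (q : Ideal B) [q.IsPrime] [q.LiesOver p] : q.inertiaDeg A = 1 := by
  haveI : q.IsMaximal := by
    refine Ideal.IsPrime.isMaximal inferInstance ?_
    intro hq
    have h1 : p = q.under A := Ideal.LiesOver.over
    rw [hq] at h1
    apply hp
    rw [h1, Ideal.under_bot]
  rw [Ideal.inertiaDeg_eq_of_isMaximal p q]
  letI := Ideal.Quotient.field p
  haveI := hres
  have hint : Algebra.IsIntegral (A ⧸ p) (B ⧸ q) := inferInstance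
  have hbij := IsAlgClosed.algebraMap_bijective_of_isIntegral (k := A ⧸ p) (K := B ⧸ q)
  have e := LinearEquiv.ofBijective (Algebra.linearMap (A ⧸ p) (B ⧸ q)) hbij
  rw [← e.finrank_eq, Module.finrank_self]

/-- the primes of `B` above `p` -/
def Above (B : Type*) {A : Type*} [CommRing A] [CommRing B] [Algebra A B] (a : A) :
    Set (HeightOneSpectrum B) := {P | algebraMap A B a ∈ P.asIdeal}

variable (K L) in
theorem sum_mult (a : A) (ha : Prime a) (hres : ∀ hm : (Ideal.span {a}).IsMaximal,
      letI := Ideal.Quotient.field (Ideal.span {a}); IsAlgClosed (A ⧸ Ideal.span {a})) :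
    (Above B a).Finite ∧
    ∑ᶠ P : Above B a, multiplicity P.1.asIdeal (Ideal.span {algebraMap A B a}) =
      Module.finrank K L := by
  have hbot : Ideal.span {a} ≠ ⊥ := by
    rw [Ne, Ideal.span_singleton_eq_bot]; exact ha.ne_zero
  haveI hprime : (Ideal.span {a}).IsPrime := by
    rw [Ideal.span_singleton_prime ha.ne_zero]; exact ha
  haveI hmax : (Ideal.span {a}).IsMaximal := hprime.isMaximal hbot
  have hB0 : algebraMap A B a ≠ 0 := by
    rw [Ne, FaithfulSMul.algebraMap_eq_zero_iff]
    exact ha.ne_zero
  have hmap : (Ideal.span {a}).map (algebraMap A B) = Ideal.span {algebraMap A B a} := by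
    rw [Ideal.map_span, Set.image_singleton]
  have hover : ∀ q : Ideal B, q.IsPrime → algebraMap A B a ∈ q → q.LiesOver (Ideal.span {a}) := by
    intro q hq haq
    refine ⟨?_⟩
    refine hmax.eq_of_le ?_ ?_
    · exact (Ideal.IsPrime.under A q).ne_top
    · rw [Ideal.span_singleton_le_iff_mem]
      exact haq
  haveI hfin : ((Ideal.span {a}).primesOver B).Finite := IsDedekindDomain.primesOver_finite _ B
  haveI := hfin.fintype
  let e : Above B a ≃ (Ideal.span {a}).primesOver B :=
    { toFun := fun P => ⟨P.1.asIdeal, P.1.isPrime, hover _ P.1.isPrime P.2⟩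
      invFun := fun q => ⟨⟨q.1, q.2.1, by
        haveI := q.2.2
        intro hq
        have h1 : Ideal.span {a} = q.1.under A := Ideal.LiesOver.over
        rw [hq] at h1
        apply hbot
        rw [h1, Ideal.under_bot]⟩, by
        haveI := q.2.2
        have h1 : Ideal.span {a} = q.1.under A := Ideal.LiesOver.over
        have h2 : a ∈ q.1.under A := by rw [← h1]; exact Ideal.mem_span_singleton_self a
        exact h2⟩
      left_inv := fun P => rfl
      right_inv := fun q => rfl }
  haveI : Finite (Above B a) := Finite.of_equiv _ e.symm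
  refine ⟨Set.toFinite _, ?_⟩
  haveI : Module.IsTorsionFree A B := by
    infer_instance
  haveI : Module.Flat A B := inferInstance
  have hsum := Ideal.sum_ramification_inertia_eq_finrank (Ideal.span {a}) B
  rw [← IsFractionRing.finrank_eq A K B L] at hsum
  rw [← hsum]
  haveI : Fintype (Above B a) := Fintype.ofFinite _
  rw [finsum_eq_sum_of_fintype]
  refine Fintype.sum_equiv e _ _ ?_
  intro P
  haveI := (e P).2.1
  haveI := (e P).2.2
  rw [inertia_one (Ideal.span {a}) hbot (hres hmax) (e P).1, mul_one,
    Ideal.IsDedekindDomain.ramificationIdx_eq_multiplicity (Ideal.span {a}) (e P).1 ?_, hmap]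
  · rfl
  · rw [hmap, Ne, Ideal.span_singleton_eq_bot]
    exact hB0

end

end Pool.Agent.Lib.MP_43d240_ag.H2
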