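import Pool.Agent.Lib.MP_43d240_ag.PI.FFBase
import Pool.Agent.Lib.MP_43d240_ag.H2.FF1
import Pool.Agent.Lib.MP_43d240_ag.H2.Sum

/-!
# Places as normalised absolute values
-/

set_option linter.all false

namespace Pool.Agent.Lib.MP_43d240_ag.H2

open IsDedekindDomain IntermediateField Pool.Agent.PI
open scoped IntermediateField.algebraAdjoinAdjoin

variable {k κ : Type} [Field k] [Field κ] [Algebra k κ]

/-- the absolute value of a place -/
noncomputable def plAbv (w : Pl k κ) : AbsoluteValue κ ℝ where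
  toFun x := open Classical in if x = 0 then 0 else (2 : ℝ) ^ (- w.v x)
  map_mul' x y := by
    by_cases hx : x = 0
    · simp [hx]
    by_cases hy : y = 0
    · simp [hy]
    simp only [hx, hy, mul_eq_zero, or_self, if_false]
    rw [w.v_mul x y hx hy, neg_add, zpow_add₀ (by norm_num)]
  nonneg' x := by
    split_ifs
    · exact le_rfl
    · positivity
  eq_zero' x := by
    constructor
    · intro h
      by_contra hx
      rw [if_neg hx] at h
      exact absurd h (zpow_ne_zero _ (by norm_num))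
    · intro h
      simp [h]
  add_le' x y := by
    by_cases hx : x = 0
    · subst hx; rw [zero_add, if_pos rfl, zero_add]
    by_cases hy : y = 0
    · subst hy; rw [add_zero, if_pos rfl, add_zero]
    by_cases hxy : x + y = 0
    · simp only [hxy, if_true]
      split_ifs
      positivity
    simp only [hx, hy, hxy, if_false]
    have h := w.v_add x y hx hy hxy
    rcases min_le_iff.1 h with h1 | h1
    · calc (2 : ℝ) ^ (- w.v (x + y)) ≤ 2 ^ (- w.v x) := zpow_le_zpow_right₀ (by norm_num) (by omega)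
        _ ≤ _ := le_add_of_nonneg_right (by positivity)
    · calc (2 : ℝ) ^ (- w.v (x + y)) ≤ 2 ^ (- w.v y) := zpow_le_zpow_right₀ (by norm_num) (by omega)
        _ ≤ _ := le_add_of_nonneg_left (by positivity)

lemma plAbv_apply (w : Pl k κ) {x : κ} (hx : x ≠ 0) : plAbv w x = (2 : ℝ) ^ (- w.v x) := by
  classical
  exact if_neg hx

lemma plAbv_norm (w : Pl k κ) : IsNormAbv k (plAbv w) := by
  refine ⟨?_, ?_, ?_, ?_⟩
  · intro x y
    by_cases hx : x = 0
    · simp [hx]
    by_cases hy : y = 0
    · simp [hy]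
    by_cases hxy : x + y = 0
    · rw [hxy, map_zero]
      exact le_max_of_le_left (AbsoluteValue.nonneg _ _)
    rw [plAbv_apply w hx, plAbv_apply w hy, plAbv_apply w hxy]
    have h := w.v_add x y hx hy hxy
    rcases min_le_iff.1 h with h1 | h1
    · exact le_max_of_le_left (zpow_le_zpow_right₀ (by norm_num) (by omega))
    · exact le_max_of_le_right (zpow_le_zpow_right₀ (by norm_num) (by omega))
  · intro c hc
    rw [plAbv_apply w (by simpa using hc), w.v_triv]
    simp
  · intro x hx
    exact ⟨_, plAbv_apply w hx⟩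
  · obtain ⟨x, hx, hx1⟩ := w.v_surj
    refine ⟨x, ?_⟩
    rw [plAbv_apply w hx, hx1]
    norm_num

lemma plAbv_inj {w w' : Pl k κ} (h : plAbv w = plAbv w') : w = w' := by
  ext x
  by_cases hx : x = 0
  · rw [hx, w.v_zero, w'.v_zero]
  · have h1 := congrArg (fun a : AbsoluteValue κ ℝ => a x) h
    rw [plAbv_apply w hx, plAbv_apply w' hx] at h1
    have h2 := zpow_right_injective₀ (by norm_num : (0:ℝ) < 2) (by norm_num) h1
    omega

/-- the place of a normalised absolute value -/
noncomputable def abvPl (v : AbsoluteValue κ ℝ) (hv : IsNormAbv k v) : Pl k κ where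
  v x := - Int.log 2 (v x)
  v_zero := by simp
  v_mul x y hx hy := by
    obtain ⟨m, hm⟩ := hv.2.2.1 x hx
    obtain ⟨n, hn⟩ := hv.2.2.1 y hy
    rw [map_mul, hm, hn, ← zpow_add₀ (by norm_num)]
    have h : ∀ z : ℤ, Int.log 2 ((2 : ℝ) ^ z) = z := fun z => by
      have := Int.log_zpow (R := ℝ) (b := 2) (by norm_num) z
      simpa using this
    rw [h, h, h]
    ring
  v_add x y hx hy hxy := by
    obtain ⟨m, hm⟩ := hv.2.2.1 x hx
    obtain ⟨n, hn⟩ := hv.2.2.1 y hy
    obtain ⟨l, hl⟩ := hv.2.2.1 _ hxy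
    have h : ∀ z : ℤ, Int.log 2 ((2 : ℝ) ^ z) = z := fun z => by
      have := Int.log_zpow (R := ℝ) (b := 2) (by norm_num) z
      simpa using this
    have h1 := hv.1 x y
    rw [hm, hn, hl] at h1
    rw [hm, hn, hl, h, h, h]
    rcases le_max_iff.1 h1 with h2 | h2
    · have := (zpow_le_zpow_iff_right₀ (by norm_num : (1:ℝ) < 2)).1 h2
      exact min_le_iff.2 (Or.inl (by omega))
    · have := (zpow_le_zpow_iff_right₀ (by norm_num : (1:ℝ) < 2)).1 h2
      exact min_le_iff.2 (Or.inr (by omega))
  v_triv c := by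
    by_cases hc : c = 0
    · simp [hc]
    · rw [hv.2.1 c hc]
      simp
  v_surj := by
    obtain ⟨x, hx⟩ := hv.2.2.2
    refine ⟨x, ?_, ?_⟩
    · rintro rfl
      simp at hx
    · rw [hx]
      have := Int.log_zpow (R := ℝ) (b := 2) (by norm_num) (-1)
      have h2 : ((2 : ℕ) : ℝ) ^ (-1 : ℤ) = 2⁻¹ := by norm_num
      rw [h2] at this
      rw [this]
      norm_num

lemma plAbv_abvPl (v : AbsoluteValue κ ℝ) (hv : IsNormAbv k v) : plAbv (abvPl v hv) = v := by
  ext x
  by_cases hx : x = 0
  · simp [hx]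
  · rw [plAbv_apply _ hx]
    obtain ⟨m, hm⟩ := hv.2.2.1 x hx
    have : (abvPl v hv).v x = - m := by
      change - Int.log 2 (v x) = _
      rw [hm]
      have := Int.log_zpow (R := ℝ) (b := 2) (by norm_num) m
      have h2 : ((2 : ℕ) : ℝ) ^ m = 2 ^ m := by norm_num
      rw [h2] at this
      rw [this]
    rw [this, hm, neg_neg]

end Pool.Agent.Lib.MP_43d240_ag.H2
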